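import Pool.Agent.Run7.h370.QC.Bas

/-!
Q6: linearisation of the derivative of the action along a vector field.
-/

set_option autoImplicit false

open Matrix
open scoped Matrix.Norms.Frobenius ComplexConjugate

namespace Run7.h370.QC

open Run7.h4.YM Run7.h630.MQ Run7.h630.QC Run7.h370.MQ

variable {N n L l : ℕ}

/-- the colours different from `0` -/
abbrev CN (N : ℕ) [NeZero N] : Finset (Col N) := (Finset.univ : Finset (Col N)).erase (0, 0)

theorem card_CN [NeZero N] : ((CN N).card : ℝ) ≤ N ^ 2 := by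
  have h1 : (CN N).card ≤ (Finset.univ : Finset (Col N)).card := Finset.card_le_card
    (Finset.erase_subset _ _)
  rw [Finset.card_univ, Fintype.card_prod, Fintype.card_fin] at h1
  have h2 : ((CN N).card : ℝ) ≤ ((N * N : ℕ) : ℝ) := by exact_mod_cast h1
  refine h2.trans (le_of_eq ?_)
  push_cast
  ring

theorem sum_CN_le [NeZero N] {f : Col N → ℝ} {B : ℝ} (hB : 0 ≤ B) (h : ∀ α, f α ≤ B) :
    ∑ α ∈ CN N, f α ≤ N ^ 2 * B := by
  refine (Finset.sum_le_sum fun α _ => h α).trans ?_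
  rw [Finset.sum_const, nsmul_eq_mul]
  exact mul_le_mul_of_nonneg_right card_CN hB

theorem tr_pr_gen [NeZero N] (V : Mt N) (hV : V * Vᴴ = 1) (B : Mt N) :
    |(trace ((V - 1) * pr B)).re - (trace ((V - 1) * B)).re| ≤
      N / 2 * (‖V - 1‖ ^ 2 * ‖B‖) + ‖B‖ * ‖trace (V - 1)‖ := by
  have hN : (0 : ℝ) < N := by exact_mod_cast Nat.pos_of_neZero N
  set F : Mt N := V - 1 with hF
  have hFF : Fᴴ = -F - F * Fᴴ := by
    rw [hF, conjTranspose_sub, conjTranspose_one, sub_mul, mul_sub, hV, mul_one, one_mul]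
    abel
  have h1 : trace (F * pr B) = 1 / 2 * trace (F * B) - 1 / 2 * trace (F * Bᴴ) - sc B * trace F := by
    rw [pr_eq, mul_sub, mul_smul_comm, mul_smul_comm, mul_one, mul_sub, trace_sub, trace_smul,
      trace_smul, trace_sub, smul_eq_mul, smul_eq_mul]
    ring
  have h2 : (trace (F * Bᴴ)).re = -(trace (F * B)).re - (trace (F * Fᴴ * B)).re := by
    have h3 : trace (F * Bᴴ) = conj (trace (Fᴴ * B)) := by
      have h4 : F * Bᴴ = (B * Fᴴ)ᴴ := by
        rw [conjTranspose_mul, conjTranspose_conjTranspose]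
      rw [h4, trace_conjTranspose, trace_mul_comm]
      rfl
    rw [h3, Complex.conj_re, hFF, sub_mul, neg_mul, trace_sub, trace_neg, Complex.sub_re,
      Complex.neg_re]
    rw [← hFF]
  have h5 : (trace (F * pr B)).re - (trace (F * B)).re =
      1 / 2 * (trace (F * Fᴴ * B)).re - (sc B * trace F).re := by
    rw [h1, Complex.sub_re, Complex.sub_re]
    have h6 : ∀ z : ℂ, (1 / 2 * z).re = 1 / 2 * z.re := by
      intro z
      have : (1 / 2 : ℂ) = ((1 / 2 : ℝ) : ℂ) := by push_cast; rfl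
      rw [this, Complex.re_ofReal_mul]
    rw [h6, h6, h2]
    ring
  rw [h5]
  have h8 : |(trace (F * Fᴴ * B)).re| ≤ N * (‖F‖ ^ 2 * ‖B‖) := by
    refine (Complex.abs_re_le_norm _).trans ((norm_tr_mul_le _ _).trans ?_)
    have h9 : ‖F * Fᴴ‖ ≤ ‖F‖ ^ 2 := by
      refine (frobenius_norm_mul _ _).trans ?_
      rw [frobenius_norm_conjTranspose, sq]
    gcongr
  have h10 : |(sc B * trace F).re| ≤ ‖B‖ * ‖trace F‖ := by
    refine (Complex.abs_re_le_norm _).trans ?_
    rw [norm_mul]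
    have h11 : ‖sc B‖ ≤ ‖B‖ := by
      refine (norm_sc_le B).trans ?_
      rw [div_le_iff₀ hN, mul_comm]
      exact norm_tr_le B
    gcongr
  rw [abs_le] at h8 h10 ⊢
  constructor <;> nlinarith [h8.1, h8.2, h10.1, h10.2]

/-- the coefficients of the linearisation -/
noncomputable def bc (k : ℕ) (a : Col N → Fin 4 → Site n L l → ℂ) (x : Site n L l) (i j : Fin 4)
    (α : Col N) : ℂ := nb k α i (a α j) x - nb k α j (a α i) x

/-- the transport error -/
noncomputable def Et [NeZero N] (k : ℕ) (U : Link n L l → SU N)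
    (a : Col N → Fin 4 → Site n L l → ℂ) (x : Site n L l) (i j : Fin 4) : Mt N :=
  ∑ α ∈ CN N, a α j (x + dir i) • ((U (i, x)).1 * (Dr α U (x + dir i)).1 * (U (i, x)).1ᴴ -
    rh k α x i • (Dr α U x).1)

theorem cj_sum [NeZero N] (k : ℕ) (U : Link n L l → SU N) (a : Col N → Fin 4 → Site n L l → ℂ)
    (x : Site n L l) (i j : Fin 4) :
    (U (i, x)).1 * Ka a U (j, x + dir i) * (U (i, x)).1ᴴ =
      pr (∑ α ∈ CN N, (rh k α x i * a α j (x + dir i)) • (Dr α U x).1 + Et k U a x i j) := by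
  unfold Ka
  rw [← pr_cj]
  congr 1
  rw [Et, ← Finset.sum_add_distrib, Matrix.mul_sum, Matrix.sum_mul]
  refine Finset.sum_congr rfl fun α _ => ?_
  rw [Matrix.mul_smul, Matrix.smul_mul, smul_sub, smul_smul, mul_comm (rh k α x i)]
  abel

/-- the derivative of the plaquette -/
theorem X_eq [NeZero N] (k : ℕ) (U : Link n L l → SU N) (a : Col N → Fin 4 → Site n L l → ℂ)
    (x : Site n L l) (i j : Fin 4) :
    Ka a U (i, x) + (U (i, x)).1 * Ka a U (j, x + dir i) * (U (i, x)).1ᴴ -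
      (U (j, x)).1 * Ka a U (i, x + dir j) * (U (j, x)).1ᴴ - Ka a U (j, x) =
    pr (∑ α ∈ CN N, bc k a x i j α • (Dr α U x).1) + pr (Et k U a x i j - Et k U a x j i) := by
  rw [cj_sum k, cj_sum k, Ka, Ka, ← pr_add, ← pr_add, ← pr_sub, ← pr_sub]
  congr 1
  have h : ∑ α ∈ CN N, bc k a x i j α • (Dr α U x).1 =
      ∑ α ∈ CN N, a α i x • (Dr α U x).1 +
      ∑ α ∈ CN N, (rh k α x i * a α j (x + dir i)) • (Dr α U x).1 -
      ∑ α ∈ CN N, (rh k α x j * a α i (x + dir j)) • (Dr α U x).1 -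
      ∑ α ∈ CN N, a α j x • (Dr α U x).1 := by
    rw [← Finset.sum_add_distrib, ← Finset.sum_sub_distrib, ← Finset.sum_sub_distrib]
    refine Finset.sum_congr rfl fun α _ => ?_
    rw [← add_smul, ← sub_smul, ← sub_smul]
    congr 1
    unfold bc nb
    ring
  rw [h]
  abel

theorem tr_dp [NeZero N] (k : ℕ) (q : ZMod n × ZMod L → ZMod N) (U : Link n L l → SU N)
    (a : Col N → Fin 4 → Site n L l → ℂ) (x : Site n L l) (i j : Fin 4) :
    zz N k q x i j * trace (dp U (Ka a U) x i j) =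
      trace (Fc k q U x i j * pr (∑ α ∈ CN N, bc k a x i j α • (Dr α U x).1)) +
      trace (Fc k q U x i j * pr (Et k U a x i j - Et k U a x j i)) := by
  rw [← trace_add, ← mul_add, ← X_eq]
  set K := Ka a U with hK
  set A := (U (i, x)).1 * K (j, x + dir i) * (U (i, x)).1ᴴ with hA
  set B := (U (j, x)).1 * K (i, x + dir j) * (U (j, x)).1ᴴ with hB
  have hA0 : trace A = 0 := by
    rw [hA, trace_cj]
    exact trace_pr _
  have hB0 : trace B = 0 := by
    rw [hB, trace_cj]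
    exact trace_pr _
  have hKi : trace (K (i, x)) = 0 := trace_pr _
  have hKj : trace (K (j, x)) = 0 := trace_pr _
  have hX0 : trace (K (i, x) + A - B - K (j, x)) = 0 := by
    rw [trace_sub, trace_sub, trace_add, hA0, hB0, hKi, hKj]
    ring
  have h1 : trace (dp U K x i j) = trace ((plaq U x i j).1 * (K (i, x) + A - B - K (j, x))) := by
    unfold dp
    rw [← hA, ← hB, trace_sub, trace_mul_comm (K (i, x) + A), ← trace_sub, ← mul_sub]
    congr 2
    abel
  have h2 : Fc k q U x i j * (K (i, x) + A - B - K (j, x)) =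
      zz N k q x i j • ((plaq U x i j).1 * (K (i, x) + A - B - K (j, x))) -
        (K (i, x) + A - B - K (j, x)) := by
    unfold Fc
    rw [sub_mul, one_mul, Matrix.smul_mul]
  rw [h2, trace_sub, hX0, sub_zero, trace_smul, smul_eq_mul, h1]

theorem Et_le [NeZero N] [NeZero n] [NeZero L] [NeZero l] (h1 : S_Q1) (k : ℕ)
    (q : ZMod n × ZMod L → ZMod N) (U : Link n L l → SU N) {a : Col N → Fin 4 → Site n L l → ℂ}
    {M : ℝ} (hM : ∀ α j x, ‖a α j x‖ ≤ M) (hM0 : 0 ≤ M) (x : Site n L l) (i j : Fin 4) :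
    ‖Et k U a x i j‖ ≤ N ^ 2 * (M * (2 * N * l * ss k q U)) := by
  have hs := ss_nonneg k q U
  unfold Et
  refine (norm_sum_le _ _).trans (sum_CN_le (by positivity) fun α => ?_)
  rw [norm_smul]
  exact mul_le_mul (hM _ _ _) (h1 N n L l k q U α x i) (norm_nonneg _) hM0

theorem bc_le {k : ℕ} {a : Col N → Fin 4 → Site n L l → ℂ}
    {M : ℝ} (hM : ∀ α j x, ‖a α j x‖ ≤ M) (x : Site n L l) (i j : Fin 4) (α : Col N) :
    ‖bc k a x i j α‖ ≤ 4 * M := by
  have h : ∀ i j, ‖nb k α i (a α j) x‖ ≤ 2 * M := by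
    intro i j
    unfold nb
    refine (norm_sub_le _ _).trans ?_
    rw [norm_mul, rh_norm, one_mul]
    linarith [hM α j (x + dir i), hM α j x]
  unfold bc
  refine (norm_sub_le _ _).trans ?_
  linarith [h i j, h j i]

theorem term_le [NeZero N] [NeZero n] [NeZero L] [NeZero l] (h1 : S_Q1) {C : ℝ} (hC : 0 ≤ C)
    (h3 : ∀ (z : ℂ), z ^ N = 1 → ∀ g : SU N, ‖trace (z • g.1 - 1)‖ ≤ C * ‖z • g.1 - 1‖ ^ 2)
    (k : ℕ) (q : ZMod n × ZMod L → ZMod N) (U : Link n L l → SU N)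
    {a : Col N → Fin 4 → Site n L l → ℂ}
    {M : ℝ} (hM : ∀ α j x, ‖a α j x‖ ≤ M) (hM0 : 0 ≤ M) (x : Site n L l) (i j : Fin 4) :
    |(zz N k q x i j * trace (dp U (Ka a U) x i j)).re -
      ∑ α ∈ CN N, (bc k a x i j α * ph2 k q α U i j x).re| ≤
      (10 * N ^ 4 + 4 * N ^ 3 * C) * (vol n L l * M * ss k q U ^ 2) := by
  have hN : (1 : ℝ) ≤ N := by exact_mod_cast Nat.pos_of_neZero N
  have hs := ss_nonneg k q U
  have hV := vol_ge (n := n) (L := L) (l := l)
  set s := ss k q U with hsd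
  set V := vol n L l with hVd
  set B : Mt N := ∑ α ∈ CN N, bc k a x i j α • (Dr α U x).1 with hB
  have hF := Fc_le k q U x i j
  rw [← hsd] at hF
  have e1 : ∑ α ∈ CN N, (bc k a x i j α * ph2 k q α U i j x).re =
      (trace (Fc k q U x i j * B)).re := by
    rw [hB, Matrix.mul_sum, trace_sum, Complex.re_sum]
    refine Finset.sum_congr rfl fun α _ => ?_
    rw [Matrix.mul_smul, trace_smul, smul_eq_mul, ph2, trace_mul_comm]
  have hBn : ‖B‖ ≤ N ^ 2 * (4 * M * N) := by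
    rw [hB]
    refine (norm_sum_le _ _).trans (sum_CN_le (by positivity) fun α => ?_)
    rw [norm_smul]
    exact mul_le_mul (bc_le hM x i j α) (norm_SU_le _) (norm_nonneg _) (by positivity)
  have e2 := tr_pr_gen (Vc k q U x i j) (Vc_unit k q U x i j) B
  have e3 : ‖trace (Vc k q U x i j - 1)‖ ≤ C * ‖Vc k q U x i j - 1‖ ^ 2 :=
    h3 _ (zz_pow k q x i j) _
  rw [← Fc_eq] at e2 e3
  have e4 := tr_pr_le (Fc k q U x i j) (Et k U a x i j - Et k U a x j i)
  have e5 : ‖Et k U a x i j - Et k U a x j i‖ ≤ 2 * (N ^ 2 * (M * (2 * N * l * s))) := by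
    refine (norm_sub_le _ _).trans ?_
    have a1 := Et_le h1 k q U hM hM0 x i j
    have a2 := Et_le h1 k q U hM hM0 x j i
    rw [← hsd] at a1 a2
    linarith
  have f1 : 2 * (N : ℝ) * (‖Fc k q U x i j‖ * ‖Et k U a x i j - Et k U a x j i‖) ≤
      2 * N * (s * (2 * (N ^ 2 * (M * (2 * N * l * s))))) := by
    gcongr
  have f2 : (N : ℝ) / 2 * (‖Fc k q U x i j‖ ^ 2 * ‖B‖) ≤
      N / 2 * (s ^ 2 * (N ^ 2 * (4 * M * N))) := by
    gcongr
  have f3 : ‖B‖ * ‖trace (Fc k q U x i j)‖ ≤ N ^ 2 * (4 * M * N) * (C * s ^ 2) := by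
    have : C * ‖Fc k q U x i j‖ ^ 2 ≤ C * s ^ 2 := by gcongr
    exact mul_le_mul hBn (e3.trans this) (norm_nonneg _) (by positivity)
  have hfin : 2 * N * (s * (2 * (N ^ 2 * (M * (2 * N * l * s))))) +
      (N / 2 * (s ^ 2 * (N ^ 2 * (4 * M * N))) + N ^ 2 * (4 * M * N) * (C * s ^ 2)) ≤
      (10 * N ^ 4 + 4 * N ^ 3 * C) * (V * M * s ^ 2) := by
    have g0 : 0 ≤ M * s ^ 2 := by positivity
    have g1 : 8 * (N : ℝ) ^ 4 * (M * s ^ 2) * l ≤ 8 * (N : ℝ) ^ 4 * (M * s ^ 2) * V :=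
      mul_le_mul_of_nonneg_left hV.2 (by positivity)
    have g2 : (2 * (N : ℝ) ^ 4 + 4 * N ^ 3 * C) * (M * s ^ 2) * 1 ≤
        (2 * (N : ℝ) ^ 4 + 4 * N ^ 3 * C) * (M * s ^ 2) * V :=
      mul_le_mul_of_nonneg_left hV.1 (by positivity)
    nlinarith [g1, g2]
  rw [tr_dp, Complex.add_re, e1]
  rw [abs_le] at e2 e4 ⊢
  constructor <;> nlinarith [e2.1, e2.2, e4.1, e4.2, f1, f2, f3, hfin]

theorem sum_pairs_le (f : Fin 4 → Fin 4 → ℝ) {B : ℝ} (hB : 0 ≤ B) (h : ∀ i j, f i j ≤ B) :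
    ∑ i : Fin 4, ∑ j ∈ Finset.Ioi i, f i j ≤ 16 * B := by
  have h1 : ∀ i : Fin 4, ∑ j ∈ Finset.Ioi i, f i j ≤ 4 * B := by
    intro i
    refine (Finset.sum_le_sum fun j _ => h i j).trans ?_
    rw [Finset.sum_const, nsmul_eq_mul]
    refine mul_le_mul_of_nonneg_right ?_ hB
    have : (Finset.Ioi i).card ≤ (Finset.univ : Finset (Fin 4)).card :=
      Finset.card_le_card (Finset.subset_univ _)
    rw [Finset.card_univ, Fintype.card_fin] at this
    exact_mod_cast this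
  refine (Finset.sum_le_sum fun i _ => h1 i).trans ?_
  rw [Finset.sum_const, Finset.card_univ, Fintype.card_fin, nsmul_eq_mul]
  push_cast
  linarith

theorem t_Q6 : S_Q1 → S_Q3b → S_Q6 := by
  intro h1 h3b N _
  obtain ⟨C, hC, h3⟩ := h3b N
  have hN : (1 : ℝ) ≤ N := by exact_mod_cast Nat.pos_of_neZero N
  refine ⟨16 * (10 * N ^ 4 + 4 * N ^ 3 * C), 2, by positivity, ?_⟩
  intro n L l k _ _ _ q U a M hM
  have hM0 : 0 ≤ M := (norm_nonneg _).trans (hM (0, 0) 0 0)
  have hs := ss_nonneg k q U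
  have hV := vol_ge (n := n) (L := L) (l := l)
  set s := ss k q U with hsd
  set V := vol n L l with hVd
  have hV0 : 0 ≤ V := le_trans (by norm_num) hV.1
  have e1 : dSq k q U (Ka a U) + ∑ α ∈ CN N, ∑ x : Site n L l, ∑ i : Fin 4, ∑ j ∈ Finset.Ioi i,
      ((nb k α i (a α j) x - nb k α j (a α i) x) * ph2 k q α U i j x).re =
      -∑ x : Site n L l, ∑ i : Fin 4, ∑ j ∈ Finset.Ioi i,
        ((zz N k q x i j * trace (dp U (Ka a U) x i j)).re -
          ∑ α ∈ CN N, (bc k a x i j α * ph2 k q α U i j x).re) := by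
    have e2 : ∑ α ∈ CN N, ∑ x : Site n L l, ∑ i : Fin 4, ∑ j ∈ Finset.Ioi i,
        ((nb k α i (a α j) x - nb k α j (a α i) x) * ph2 k q α U i j x).re =
        ∑ x : Site n L l, ∑ i : Fin 4, ∑ j ∈ Finset.Ioi i, ∑ α ∈ CN N,
          (bc k a x i j α * ph2 k q α U i j x).re := by
      rw [Finset.sum_comm]
      refine Finset.sum_congr rfl fun x _ => ?_
      rw [Finset.sum_comm]
      refine Finset.sum_congr rfl fun i _ => ?_
      rw [Finset.sum_comm]
      rfl
    rw [e2]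
    simp only [Finset.sum_sub_distrib]
    unfold dSq
    ring
  rw [e1, abs_neg]
  refine (Finset.abs_sum_le_sum_abs _ _).trans ?_
  have e3 : ∀ x : Site n L l, |∑ i : Fin 4, ∑ j ∈ Finset.Ioi i,
        ((zz N k q x i j * trace (dp U (Ka a U) x i j)).re -
          ∑ α ∈ CN N, (bc k a x i j α * ph2 k q α U i j x).re)| ≤
      16 * ((10 * N ^ 4 + 4 * N ^ 3 * C) * (V * M * s ^ 2)) := by
    intro x
    refine (Finset.abs_sum_le_sum_abs _ _).trans ?_
    refine (Finset.sum_le_sum fun i _ => Finset.abs_sum_le_sum_abs _ _).trans ?_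
    exact sum_pairs_le (fun i j => |(zz N k q x i j * trace (dp U (Ka a U) x i j)).re -
          ∑ α ∈ CN N, (bc k a x i j α * ph2 k q α U i j x).re|) (by positivity)
      fun i j => term_le h1 hC.le h3 k q U hM hM0 x i j
  refine (Finset.sum_le_sum fun x _ => e3 x).trans ?_
  rw [Finset.sum_const, nsmul_eq_mul, card_site, ← hVd]
  refine le_of_eq ?_
  ring

end Run7.h370.QC
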