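import Pool.Agent.Run7.h370.QC.Bas

/-!
Q4: the Bianchi identity.
-/

set_option autoImplicit false

open Matrix
open scoped Matrix.Norms.Frobenius ComplexConjugate

namespace Run7.h370.QC

open Run7.h4.YM Run7.h630.MQ Run7.h630.QC Run7.h370.MQ

variable {N n L l : ℕ}

theorem norm_unit_mul {V : Mt N} (h : V * Vᴴ = 1) (A : Mt N) : ‖V * A‖ = ‖A‖ := by
  have h' : Vᴴ * V = 1 := mul_eq_one_comm.1 h
  have h1 : ‖V * A‖ ^ 2 = ‖A‖ ^ 2 := by
    rw [norm_sq_tr, norm_sq_tr, conjTranspose_mul]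
    have h2 : V * A * (Aᴴ * Vᴴ) = V * (A * Aᴴ) * Vᴴ := by
      simp only [mul_assoc]
    rw [h2, trace_mul_cycle, h', one_mul]
  exact (sq_eq_sq₀ (norm_nonneg _) (norm_nonneg _)).1 h1

theorem norm_mul_unit {V : Mt N} (h : V * Vᴴ = 1) (A : Mt N) : ‖A * V‖ = ‖A‖ := by
  have h1 : ‖A * V‖ ^ 2 = ‖A‖ ^ 2 := by
    rw [norm_sq_tr, norm_sq_tr, conjTranspose_mul]
    have h2 : A * V * (Vᴴ * Aᴴ) = A * (V * Vᴴ) * Aᴴ := by
      simp only [mul_assoc]
    rw [h2, h, mul_one]
  exact (sq_eq_sq₀ (norm_nonneg _) (norm_nonneg _)).1 h1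

/-- conjugation -/
def cj (g : SU N) (A : Mt N) : Mt N := g.1 * A * g.1ᴴ

theorem norm_cj (g : SU N) (A : Mt N) : ‖cj g A‖ = ‖A‖ := by
  have h1 : g.1ᴴ * (g.1ᴴ)ᴴ = 1 := by
    rw [conjTranspose_conjTranspose, star_mul_self]
  rw [cj, norm_mul_unit h1, norm_unit_mul (mul_star_self' g)]

theorem cj_one (g : SU N) : cj g 1 = 1 := by rw [cj, mul_one, mul_star_self']

theorem cj_sub (g : SU N) (A B : Mt N) : cj g (A - B) = cj g A - cj g B := by
  rw [cj, cj, cj, mul_sub, sub_mul]

theorem cj_add (g : SU N) (A B : Mt N) : cj g (A + B) = cj g A + cj g B := by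
  rw [cj, cj, cj, mul_add, add_mul]

theorem cj_star (g : SU N) (A : Mt N) : (cj g A)ᴴ = cj g Aᴴ := by
  rw [cj, cj, conjTranspose_mul, conjTranspose_mul, conjTranspose_conjTranspose, mul_assoc]

theorem cj_mul (g : SU N) (A B : Mt N) : cj g A * cj g B = cj g (A * B) := by
  unfold cj
  calc g.1 * A * g.1ᴴ * (g.1 * B * g.1ᴴ) = g.1 * A * (g.1ᴴ * g.1) * B * g.1ᴴ := by
        simp only [mul_assoc]
    _ = g.1 * (A * B) * g.1ᴴ := by rw [star_mul_self, mul_one]; simp only [mul_assoc]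

/-- products of unitary matrices near `1` -/
theorem prod_near {s : ℝ} (hs : 0 ≤ s) (Vs : List (Mt N)) (h : ∀ V ∈ Vs, V * Vᴴ = 1)
    (hn : ∀ V ∈ Vs, ‖V - 1‖ ≤ s) :
    ‖Vs.prod - 1‖ ≤ Vs.length * s ∧
      ‖Vs.prod - 1 - (Vs.map fun V => V - 1).sum‖ ≤ Vs.length ^ 2 * s ^ 2 := by
  induction Vs with
  | nil => simp
  | cons V Vs ih =>
    obtain ⟨i1, i2⟩ := ih (fun V hV => h V (List.mem_cons_of_mem _ hV))
      (fun V hV => hn V (List.mem_cons_of_mem _ hV))
    have hV := h V List.mem_cons_self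
    have hV1 := hn V List.mem_cons_self
    rw [List.prod_cons, List.map_cons, List.sum_cons, List.length_cons]
    have e1 : V * Vs.prod - 1 = V * (Vs.prod - 1) + (V - 1) := by
      rw [mul_sub, mul_one]
      abel
    have e2 : V * Vs.prod - 1 - (V - 1 + (Vs.map fun V => V - 1).sum) =
        (Vs.prod - 1 - (Vs.map fun V => V - 1).sum) + (V - 1) * (Vs.prod - 1) := by
      rw [sub_mul, one_mul, mul_sub, mul_one]
      abel
    constructor
    · rw [e1]
      refine (norm_add_le _ _).trans ?_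
      rw [norm_unit_mul hV]
      push_cast
      linarith
    · rw [e2]
      refine (norm_add_le _ _).trans ?_
      have e3 : ‖(V - 1) * (Vs.prod - 1)‖ ≤ s * (Vs.length * s) :=
        (frobenius_norm_mul _ _).trans (mul_le_mul hV1 i1 (norm_nonneg _) hs)
      push_cast
      have e4 : (0 : ℝ) ≤ Vs.length := Nat.cast_nonneg _
      have e5 : 0 ≤ s ^ 2 := sq_nonneg s
      nlinarith [e3, i2, mul_nonneg e4 e5]

theorem near_star {V : Mt N} (h : V * Vᴴ = 1) : ‖(V - 1) + (V - 1)ᴴ‖ ≤ ‖V - 1‖ ^ 2 := by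
  have h1 : (V - 1) + (V - 1)ᴴ = -((V - 1) * (V - 1)ᴴ) := by
    rw [conjTranspose_sub, conjTranspose_one, sub_mul, mul_sub, h, mul_one, one_mul]
    abel
  rw [h1, norm_neg]
  refine (frobenius_norm_mul _ _).trans ?_
  rw [frobenius_norm_conjTranspose, sq]

theorem dir_val (m : Fin 4) :
    (m ≠ 0 → (dir m : Site n L l).1 = 0) ∧ (m ≠ 1 → (dir m : Site n L l).2.1 = 0) ∧
    (m ≠ 2 → (dir m : Site n L l).2.2.1 = 0) ∧ (m ≠ 3 → (dir m : Site n L l).2.2.2 = 0) := by
  fin_cases m <;> simp [dir]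

theorem z0_shift (k : ℕ) (q : ZMod n × ZMod L → ZMod N) (x : Site n L l) {i j m : Fin 4}
    (hi : m ≠ i) (hj : m ≠ j) : z0 N k q (x + dir m) i j = z0 N k q x i j := by
  obtain ⟨d0, d1, d2, d3⟩ := dir_val (n := n) (L := L) (l := l) m
  unfold z0
  by_cases h1 : i = 0 ∧ j = 1
  · have e1 : (x + dir m).1 = x.1 := by
      rw [Prod.fst_add, d0 (h1.1 ▸ hi), add_zero]
    have e2 : (x + dir m).2.1 = x.2.1 := by
      rw [Prod.snd_add, Prod.fst_add, d1 (h1.2 ▸ hj), add_zero]
    rw [if_pos h1, if_pos h1, e1, e2]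
  · rw [if_neg h1, if_neg h1]
    by_cases h2 : i = 2 ∧ j = 3
    · have e1 : (x + dir m).2.2 = x.2.2 := by
        have a1 : (dir m : Site n L l).2.2 = 0 :=
          Prod.ext (d2 (h2.1 ▸ hi)) (d3 (h2.2 ▸ hj))
        rw [Prod.snd_add, Prod.snd_add, a1, add_zero]
      rw [e1]
    · rw [if_neg fun h => h2 ⟨h.1, h.2.1⟩, if_neg fun h => h2 ⟨h.1, h.2.1⟩]

theorem zz_shift (k : ℕ) (q : ZMod n × ZMod L → ZMod N) (x : Site n L l) {i j m : Fin 4}
    (hi : m ≠ i) (hj : m ≠ j) : zz N k q (x + dir m) i j = zz N k q x i j := by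
  unfold zz
  rw [z0_shift k q x hi hj, z0_shift k q x hj hi]

/-- the curvature transported in the direction `m` -/
noncomputable def Gm (k : ℕ) (q : ZMod n × ZMod L → ZMod N) (U : Link n L l → SU N) (x : Site n L l)
    (i j m : Fin 4) : Mt N := cj (U (m, x)) (Fc k q U (x + dir m) i j)

theorem Gm_add_one (k : ℕ) (q : ZMod n × ZMod L → ZMod N) (U : Link n L l → SU N)
    (x : Site n L l) {i j m : Fin 4} (hi : m ≠ i) (hj : m ≠ j) :
    Gm k q U x i j m + 1 =
      zz N k q x i j • (U (m, x) * plaq U (x + dir m) i j * (U (m, x))⁻¹).1 := by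
  unfold Gm
  rw [Fc, cj_sub, cj_one, sub_add_cancel, zz_shift k q x hi hj, cj, Matrix.mul_smul,
    Matrix.smul_mul]
  rfl

theorem Fc_add_one (k : ℕ) (q : ZMod n × ZMod L → ZMod N) (U : Link n L l → SU N)
    (x : Site n L l) (i j : Fin 4) :
    Fc k q U x i j + 1 = zz N k q x i j • (plaq U x i j).1 := by
  rw [Fc, sub_add_cancel]

theorem bianchi_group (U : Link n L l → SU N) (x : Site n L l) (i j m : Fin 4) :
    plaq U x i j * (U (j, x) * plaq U (x + dir j) i m * (U (j, x))⁻¹) * plaq U x j m *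
      (U (m, x) * plaq U (x + dir m) j i * (U (m, x))⁻¹) * plaq U x m i *
      (U (i, x) * plaq U (x + dir i) m j * (U (i, x))⁻¹) = 1 := by
  unfold plaq
  rw [add_right_comm x (dir j) (dir i), add_right_comm x (dir m) (dir j),
    add_right_comm x (dir m) (dir i)]
  group

theorem bianchi_group' (U : Link n L l → SU N) (x : Site n L l) (i j m : Fin 4) :
    plaq U x i j * ((U (j, x) * plaq U (x + dir j) i m * (U (j, x))⁻¹) * (plaq U x j m *
      ((U (m, x) * plaq U (x + dir m) j i * (U (m, x))⁻¹) * (plaq U x m i *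
      (U (i, x) * plaq U (x + dir i) m j * (U (i, x))⁻¹))))) = 1 := by
  rw [← bianchi_group U x i j m]
  simp only [mul_assoc]

theorem bianchi_twist (k : ℕ) (q : ZMod n × ZMod L → ZMod N) (x : Site n L l) (i j m : Fin 4) :
    zz N k q x i j * (zz N k q x i m * (zz N k q x j m * (zz N k q x j i *
      (zz N k q x m i * zz N k q x m j)))) = 1 := by
  rw [zz_conj k q x i j, zz_conj k q x i m, zz_conj k q x j m]
  have h1 := mul_conj_self (zz_norm (N := N) k q x i j)
  have h2 := mul_conj_self (zz_norm (N := N) k q x i m)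
  have h3 := mul_conj_self (zz_norm (N := N) k q x j m)
  calc zz N k q x i j * (zz N k q x i m * (zz N k q x j m * (conj (zz N k q x i j) *
      (conj (zz N k q x i m) * conj (zz N k q x j m)))))
      = (zz N k q x i j * conj (zz N k q x i j)) * (zz N k q x i m * conj (zz N k q x i m)) *
        (zz N k q x j m * conj (zz N k q x j m)) := by ring
    _ = 1 := by rw [h1, h2, h3, one_mul, one_mul]

theorem cj_unit {V : Mt N} (h : V * Vᴴ = 1) (g : SU N) : cj g V * (cj g V)ᴴ = 1 := by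
  rw [cj_star, cj_mul, h, cj_one]

theorem Gm_le [NeZero n] [NeZero L] [NeZero l] (k : ℕ) (q : ZMod n × ZMod L → ZMod N)
    (U : Link n L l → SU N) (x : Site n L l) (i j m : Fin 4) :
    ‖Gm k q U x i j m‖ ≤ ss k q U := by
  rw [Gm, norm_cj]
  exact Fc_le k q U _ i j

theorem Gm_symm (k : ℕ) (q : ZMod n × ZMod L → ZMod N) (U : Link n L l → SU N) (x : Site n L l)
    (i j m : Fin 4) : Gm k q U x j i m = (Gm k q U x i j m)ᴴ := by
  rw [Gm, Gm, cj_star, Fc_symm k q U _ i j]

theorem Gm_unit (k : ℕ) (q : ZMod n × ZMod L → ZMod N) (U : Link n L l → SU N) (x : Site n L l)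
    (i j m : Fin 4) : (Gm k q U x i j m + 1) * (Gm k q U x i j m + 1)ᴴ = 1 := by
  have h : Gm k q U x i j m + 1 = cj (U (m, x)) (Vc k q U (x + dir m) i j) := by
    rw [Gm, Fc_eq, cj_sub, cj_one, sub_add_cancel]
  rw [h]
  exact cj_unit (Vc_unit k q U _ i j) _

theorem Fc_unit (k : ℕ) (q : ZMod n × ZMod L → ZMod N) (U : Link n L l → SU N) (x : Site n L l)
    (i j : Fin 4) : (Fc k q U x i j + 1) * (Fc k q U x i j + 1)ᴴ = 1 := by
  rw [Fc_eq, sub_add_cancel]
  exact Vc_unit k q U x i j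

theorem Gm_star_le [NeZero n] [NeZero L] [NeZero l] (k : ℕ) (q : ZMod n × ZMod L → ZMod N)
    (U : Link n L l → SU N) (x : Site n L l) (i j m : Fin 4) :
    ‖Gm k q U x i j m + Gm k q U x j i m‖ ≤ ss k q U ^ 2 := by
  have h := near_star (Gm_unit k q U x i j m)
  rw [add_sub_cancel_right, ← Gm_symm] at h
  exact h.trans (pow_le_pow_left₀ (norm_nonneg _) (Gm_le k q U x i j m) 2)

theorem Fc_star_le [NeZero n] [NeZero L] [NeZero l] (k : ℕ) (q : ZMod n × ZMod L → ZMod N)
    (U : Link n L l → SU N) (x : Site n L l) (i j : Fin 4) :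
    ‖Fc k q U x i j + Fc k q U x j i‖ ≤ ss k q U ^ 2 := by
  have h := near_star (Fc_unit k q U x i j)
  rw [add_sub_cancel_right, ← Fc_symm] at h
  exact h.trans (pow_le_pow_left₀ (norm_nonneg _) (Fc_le k q U x i j) 2)

theorem bianchi_mat [NeZero n] [NeZero L] [NeZero l] (k : ℕ) (q : ZMod n × ZMod L → ZMod N)
    (U : Link n L l → SU N) (x : Site n L l) {i j m : Fin 4} (h1 : i ≠ j) (h2 : j ≠ m)
    (h3 : m ≠ i) :
    ‖(Gm k q U x i j m - Fc k q U x i j) + (Gm k q U x j m i - Fc k q U x j m) +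
      (Gm k q U x m i j - Fc k q U x m i)‖ ≤ 39 * ss k q U ^ 2 := by
  set s := ss k q U with hs
  have hs0 : 0 ≤ s := ss_nonneg k q U
  set Vs : List (Mt N) := [Fc k q U x i j + 1, Gm k q U x i m j + 1, Fc k q U x j m + 1,
    Gm k q U x j i m + 1, Fc k q U x m i + 1, Gm k q U x m j i + 1] with hVs
  have hu : ∀ V ∈ Vs, V * Vᴴ = 1 := by
    intro V hV
    simp only [hVs, List.mem_cons, List.not_mem_nil, or_false] at hV
    rcases hV with rfl | rfl | rfl | rfl | rfl | rfl
    · exact Fc_unit k q U x i j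
    · exact Gm_unit k q U x i m j
    · exact Fc_unit k q U x j m
    · exact Gm_unit k q U x j i m
    · exact Fc_unit k q U x m i
    · exact Gm_unit k q U x m j i
  have hn : ∀ V ∈ Vs, ‖V - 1‖ ≤ s := by
    intro V hV
    simp only [hVs, List.mem_cons, List.not_mem_nil, or_false] at hV
    rcases hV with rfl | rfl | rfl | rfl | rfl | rfl <;> rw [add_sub_cancel_right]
    · exact Fc_le k q U x i j
    · exact Gm_le k q U x i m j
    · exact Fc_le k q U x j m
    · exact Gm_le k q U x j i m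
    · exact Fc_le k q U x m i
    · exact Gm_le k q U x m j i
  have hp : Vs.prod = 1 := by
    simp only [hVs, List.prod_cons, List.prod_nil, mul_one]
    rw [Fc_add_one, Fc_add_one, Fc_add_one, Gm_add_one k q U x h1.symm h2,
      Gm_add_one k q U x h2.symm h3, Gm_add_one k q U x h3.symm h1]
    simp only [Matrix.smul_mul, Matrix.mul_smul, smul_smul]
    have e1 : (plaq U x i j).1 * ((U (j, x) * plaq U (x + dir j) i m * (U (j, x))⁻¹).1 *
        ((plaq U x j m).1 * ((U (m, x) * plaq U (x + dir m) j i * (U (m, x))⁻¹).1 *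
        ((plaq U x m i).1 * (U (i, x) * plaq U (x + dir i) m j * (U (i, x))⁻¹).1)))) = 1 :=
      congrArg Subtype.val (bianchi_group' U x i j m)
    rw [e1]
    have e3 := bianchi_twist (N := N) k q x i j m
    have e4 : (zz N k q x i j * (zz N k q x i m * (zz N k q x j m * (zz N k q x j i *
      (zz N k q x m i * zz N k q x m j))))) • (1 : Mt N) = 1 := by
      rw [e3, one_smul]
    rw [← e4]
    congr 1
    ring
  have h := (prod_near hs0 Vs hu hn).2
  rw [hp, sub_self, zero_sub, norm_neg] at h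
  simp only [hVs, List.map_cons, List.map_nil, List.sum_cons, List.sum_nil, List.length_cons,
    List.length_nil, add_sub_cancel_right, add_zero] at h
  have g1 := Gm_star_le k q U x i m j
  have g2 := Gm_star_le k q U x j i m
  have g3 := Gm_star_le k q U x m j i
  rw [← hs] at g1 g2 g3
  have e : (Gm k q U x i j m - Fc k q U x i j) + (Gm k q U x j m i - Fc k q U x j m) +
      (Gm k q U x m i j - Fc k q U x m i) =
      (Gm k q U x i m j + Gm k q U x m i j) + (Gm k q U x j i m + Gm k q U x i j m) +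
        (Gm k q U x m j i + Gm k q U x j m i) -
        (Fc k q U x i j + (Gm k q U x i m j + (Fc k q U x j m + (Gm k q U x j i m +
          (Fc k q U x m i + Gm k q U x m j i))))) := by abel
  rw [e]
  refine (norm_sub_le _ _).trans ?_
  have e5 := norm_add₃_le (a := Gm k q U x i m j + Gm k q U x m i j)
    (b := Gm k q U x j i m + Gm k q U x i j m) (c := Gm k q U x m j i + Gm k q U x j m i)
  norm_num at h
  linarith

/-- the curvature of the colour `α`, for all `i`, `j` -/
noncomputable def fi (k : ℕ) (q : ZMod n × ZMod L → ZMod N) (α : Col N) (U : Link n L l → SU N)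
    (i j : Fin 4) (x : Site n L l) : ℂ := trace ((Dr α U x).1 * Fc k q U x i j)

theorem ps_le [NeZero n] [NeZero L] [NeZero l] (k : ℕ) (q : ZMod n × ZMod L → ZMod N)
    (α : Col N) (U : Link n L l → SU N) {i j : Fin 4} (hij : i ≠ j) (x : Site n L l) :
    ‖ps k q α U i j x - conj (fi k q α U i j x)‖ ≤ N ^ 2 * ss k q U ^ 2 := by
  unfold ps
  rcases lt_or_gt_of_ne hij with h | h
  · rw [if_pos h]
    have : ph2 k q α U i j x = fi k q α U i j x := rfl
    rw [this, sub_self, norm_zero]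
    positivity
  · rw [if_neg h.not_gt, if_pos h]
    have e : -conj (ph2 k q α U j i x) - conj (fi k q α U i j x) =
        -conj (trace ((Dr α U x).1 * (Fc k q U x j i + Fc k q U x i j))) := by
      rw [mul_add, trace_add, map_add]
      unfold ph2 fi
      ring
    rw [e, norm_neg, RCLike.norm_conj]
    refine (norm_tr_mul_le _ _).trans ?_
    have e1 := Fc_star_le k q U x j i
    have e2 : ‖(Dr α U x).1‖ ≤ N := norm_SU_le _
    calc (N : ℝ) * (‖(Dr α U x).1‖ * ‖Fc k q U x j i + Fc k q U x i j‖) ≤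
        N * (N * ss k q U ^ 2) := by gcongr
      _ = _ := by ring

theorem nb_le [NeZero N] [NeZero n] [NeZero L] [NeZero l] (hQ1 : S_Q1) (k : ℕ)
    (q : ZMod n × ZMod L → ZMod N) (α : Col N) (U : Link n L l → SU N) {i j m : Fin 4}
    (hij : i ≠ j) (x : Site n L l) :
    ‖nb k α m (ps k q α U i j) x - conj (trace ((Dr α U x).1 *
      (Gm k q U x i j m - Fc k q U x i j)))‖ ≤ 4 * N ^ 2 * l * ss k q U ^ 2 := by
  have hl : (1 : ℝ) ≤ l := by exact_mod_cast Nat.pos_of_neZero l
  set s := ss k q U with hs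
  have hs0 : 0 ≤ s := ss_nonneg k q U
  set ρ := rh k α x m with hρ
  have hρ1 : ‖ρ‖ = 1 := rh_norm k α x m
  set E : Mt N := (U (m, x)).1 * (Dr α U (x + dir m)).1 * (U (m, x)).1ᴴ - ρ • (Dr α U x).1 with hE
  have hE1 : ‖E‖ ≤ 2 * N * l * s := hQ1 N n L l k q U α x m
  have e1 : fi k q α U i j (x + dir m) = ρ * trace ((Dr α U x).1 * Gm k q U x i j m) +
      trace (E * Gm k q U x i j m) := by
    have e2 : cj (U (m, x)) (Dr α U (x + dir m)).1 = ρ • (Dr α U x).1 + E := by
      rw [hE, cj]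
      abel
    have e3 : fi k q α U i j (x + dir m) =
        trace (cj (U (m, x)) (Dr α U (x + dir m)).1 * Gm k q U x i j m) := by
      rw [Gm, cj_mul]
      unfold fi cj
      rw [trace_cj]
    rw [e3, e2, add_mul, trace_add, Matrix.smul_mul, trace_smul, smul_eq_mul]
  have e4 : nb k α m (ps k q α U i j) x - conj (trace ((Dr α U x).1 *
      (Gm k q U x i j m - Fc k q U x i j))) =
      ρ * (ps k q α U i j (x + dir m) - conj (fi k q α U i j (x + dir m))) -
        (ps k q α U i j x - conj (fi k q α U i j x)) +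
        ρ * conj (trace (E * Gm k q U x i j m)) := by
    have e5 : ρ * conj ρ = 1 := mul_conj_self hρ1
    rw [e1, map_add, map_mul, mul_sub (Dr α U x).1, trace_sub, map_sub]
    unfold nb fi
    rw [← hρ]
    have e6 : ρ * (conj ρ * conj (trace ((Dr α U x).1 * Gm k q U x i j m))) =
        conj (trace ((Dr α U x).1 * Gm k q U x i j m)) := by
      rw [← mul_assoc, e5, one_mul]
    rw [mul_sub, mul_add, e6]
    ring
  rw [e4]
  have f1 := ps_le k q α U hij (x + dir m)
  have f2 := ps_le k q α U hij x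
  have f3 : ‖ρ * conj (trace (E * Gm k q U x i j m))‖ ≤ N * (2 * N * l * s * s) := by
    rw [norm_mul, hρ1, one_mul, RCLike.norm_conj]
    refine (norm_tr_mul_le _ _).trans ?_
    have := Gm_le k q U x i j m
    gcongr
  have f4 : ‖ρ * (ps k q α U i j (x + dir m) - conj (fi k q α U i j (x + dir m)))‖ ≤
      N ^ 2 * s ^ 2 := by
    rw [norm_mul, hρ1, one_mul]
    exact f1
  refine (norm_add_le _ _).trans ?_
  refine (add_le_add (norm_sub_le _ _) le_rfl).trans ?_
  rw [← hs] at f2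
  have g0 : (0 : ℝ) ≤ N ^ 2 * s ^ 2 := by positivity
  nlinarith [f2, f3, f4, mul_le_mul_of_nonneg_left hl g0]

theorem t_Q4 : S_Q1 → S_Q4 := by
  intro hQ1 N _
  have hN : (0 : ℝ) < N := by exact_mod_cast Nat.pos_of_neZero N
  refine ⟨51 * N ^ 2, 1, by positivity, ?_⟩
  intro n L l k _ _ _ q U α x i j m h1 h2 h3
  have hl : (1 : ℝ) ≤ l := by exact_mod_cast Nat.pos_of_neZero l
  have a1 := nb_le hQ1 k q α U (m := m) h1 x
  have a2 := nb_le hQ1 k q α U (m := i) h2 x
  have a3 := nb_le hQ1 k q α U (m := j) h3 x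
  have a4 := bianchi_mat k q U x h1 h2 h3
  set s := ss k q U with hs
  set D := (Dr α U x).1 with hD
  set G1 := Gm k q U x i j m - Fc k q U x i j with hG1
  set G2 := Gm k q U x j m i - Fc k q U x j m with hG2
  set G3 := Gm k q U x m i j - Fc k q U x m i with hG3
  have e : nb k α m (ps k q α U i j) x + nb k α i (ps k q α U j m) x +
      nb k α j (ps k q α U m i) x =
      (nb k α m (ps k q α U i j) x - conj (trace (D * G1))) +
      (nb k α i (ps k q α U j m) x - conj (trace (D * G2))) +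
      (nb k α j (ps k q α U m i) x - conj (trace (D * G3))) +
      conj (trace (D * (G1 + G2 + G3))) := by
    rw [mul_add, mul_add, trace_add, trace_add, map_add, map_add]
    ring
  rw [e]
  have a5 : ‖conj (trace (D * (G1 + G2 + G3)))‖ ≤ N * (N * (39 * s ^ 2)) := by
    rw [RCLike.norm_conj]
    refine (norm_tr_mul_le _ _).trans ?_
    have : ‖D‖ ≤ N := norm_SU_le _
    gcongr
  refine (norm_add_le _ _).trans ?_
  refine (add_le_add norm_add₃_le le_rfl).trans ?_
  have g0 : (0 : ℝ) ≤ N ^ 2 * s ^ 2 := by positivity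
  rw [pow_one]
  nlinarith [a1, a2, a3, a5, mul_le_mul_of_nonneg_left hl g0]

end Run7.h370.QC
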