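import Pool.Agent.Run7.h370.MQ.Mx
import Pool.Agent.Run7.h370.MQ.St
import Pool.Agent.Run7.h630.QC.Iface

/-!
Basic facts on the curvature, the twists and the action.
-/

set_option autoImplicit false

open Matrix
open scoped Matrix.Norms.Frobenius ComplexConjugate

namespace Run7.h370.QC

open Run7.h4.YM Run7.h630.MQ Run7.h630.QC Run7.h370.MQ

variable {N n L l : ℕ}

theorem om_pow [NeZero N] (k : ℕ) : om N k ^ N = 1 := by
  have hN : (N : ℂ) ≠ 0 := Nat.cast_ne_zero.2 (NeZero.ne N)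
  rw [om, ← Complex.exp_nat_mul]
  have h : (N : ℂ) * (2 * Real.pi * Complex.I * (k / N)) = (k : ℤ) * (2 * Real.pi * Complex.I) := by
    field_simp
    push_cast
    rfl
  rw [h, Complex.exp_int_mul_two_pi_mul_I]

theorem z0_pow [NeZero N] (k : ℕ) (q : ZMod n × ZMod L → ZMod N) (x : Site n L l) (i j : Fin 4) :
    z0 N k q x i j ^ N = 1 := by
  unfold z0
  split_ifs
  · rw [← pow_mul, mul_comm, pow_mul, om_pow, one_pow]
  · exact om_pow k
  · exact one_pow N

theorem z0_norm (k : ℕ) (q : ZMod n × ZMod L → ZMod N) (x : Site n L l) (i j : Fin 4) :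
    ‖z0 N k q x i j‖ = 1 := by
  unfold z0
  split_ifs
  · rw [norm_pow, norm_om, one_pow]
  · exact norm_om N k
  · exact norm_one

theorem zz_norm (k : ℕ) (q : ZMod n × ZMod L → ZMod N) (x : Site n L l) (i j : Fin 4) :
    ‖zz N k q x i j‖ = 1 := by
  unfold zz
  split_ifs
  · exact z0_norm k q x i j
  · rw [RCLike.norm_conj]
    exact z0_norm k q x j i

theorem zz_pow [NeZero N] (k : ℕ) (q : ZMod n × ZMod L → ZMod N) (x : Site n L l) (i j : Fin 4) :
    zz N k q x i j ^ N = 1 := by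
  unfold zz
  split_ifs
  · exact z0_pow k q x i j
  · rw [← map_pow, z0_pow, map_one]

theorem z0_diag (k : ℕ) (q : ZMod n × ZMod L → ZMod N) (x : Site n L l) (i : Fin 4) :
    z0 N k q x i i = 1 := by
  unfold z0
  rw [if_neg, if_neg]
  · rintro ⟨rfl, h, -⟩
    exact absurd h (by decide)
  · rintro ⟨rfl, h⟩
    exact absurd h (by decide)

theorem zz_conj (k : ℕ) (q : ZMod n × ZMod L → ZMod N) (x : Site n L l) (i j : Fin 4) :
    zz N k q x j i = conj (zz N k q x i j) := by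
  unfold zz
  rcases lt_trichotomy i j with h | h | h
  · rw [if_neg h.not_gt, if_pos h]
  · subst h
    rw [if_neg (lt_irrefl i), z0_diag, map_one, map_one]
  · rw [if_pos h, if_neg h.not_gt, Complex.conj_conj]

theorem conj_mul_self {z : ℂ} (h : ‖z‖ = 1) : conj z * z = 1 := by
  rw [Complex.conj_mul', h]
  simp

theorem mul_conj_self {z : ℂ} (h : ‖z‖ = 1) : z * conj z = 1 := by
  rw [mul_comm, conj_mul_self h]

/-- the curvature as a unitary matrix -/
noncomputable def Vc (k : ℕ) (q : ZMod n × ZMod L → ZMod N) (U : Link n L l → SU N)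
    (x : Site n L l) (i j : Fin 4) : Mt N := zz N k q x i j • (plaq U x i j).1

theorem Fc_eq (k : ℕ) (q : ZMod n × ZMod L → ZMod N) (U : Link n L l → SU N)
    (x : Site n L l) (i j : Fin 4) : Fc k q U x i j = Vc k q U x i j - 1 := rfl

theorem smul_unit {z : ℂ} (h : ‖z‖ = 1) (g : SU N) : (z • g.1) * (z • g.1)ᴴ = 1 := by
  rw [conjTranspose_smul, smul_mul_assoc, mul_smul_comm, mul_star_self', smul_smul]
  have h1 : z * star z = 1 := mul_conj_self h
  rw [h1, one_smul]

theorem Vc_unit (k : ℕ) (q : ZMod n × ZMod L → ZMod N) (U : Link n L l → SU N)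
    (x : Site n L l) (i j : Fin 4) : Vc k q U x i j * (Vc k q U x i j)ᴴ = 1 :=
  smul_unit (zz_norm k q x i j) _

theorem norm_sq_tr (A : Mt N) : ‖A‖ ^ 2 = (trace (A * Aᴴ)).re := by
  rw [norm_sq_eq]
  unfold trace
  simp only [diag_apply, mul_apply, conjTranspose_apply, Complex.re_sum]
  refine Finset.sum_congr rfl fun i _ => Finset.sum_congr rfl fun j _ => ?_
  have h : A i j * star (A i j) = ((‖A i j‖ ^ 2 : ℝ) : ℂ) := by
    have := Complex.mul_conj' (A i j)
    push_cast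
    exact this
  rw [h, Complex.ofReal_re]

theorem norm_unit_sub (V : Mt N) (hV : V * Vᴴ = 1) : ‖V - 1‖ ^ 2 = 2 * (N - (trace V).re) := by
  rw [norm_sq_tr, conjTranspose_sub, conjTranspose_one, sub_mul, mul_sub, hV, mul_one, one_mul,
    trace_sub, trace_sub, trace_sub, trace_one, Fintype.card_fin, trace_conjTranspose]
  simp only [Complex.sub_re, Complex.natCast_re, RCLike.star_def, Complex.conj_re]
  ring

theorem Fc_sq (k : ℕ) (q : ZMod n × ZMod L → ZMod N) (U : Link n L l → SU N)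
    (x : Site n L l) (i j : Fin 4) :
    ‖Fc k q U x i j‖ ^ 2 = 2 * (N - (zz N k q x i j * trace (plaq U x i j).1).re) := by
  rw [Fc_eq, norm_unit_sub _ (Vc_unit k q U x i j), Vc, trace_smul, smul_eq_mul]

theorem two_Sq [NeZero n] [NeZero L] [NeZero l] (k : ℕ) (q : ZMod n × ZMod L → ZMod N)
    (U : Link n L l → SU N) :
    2 * Sq k q U = ∑ x : Site n L l, ∑ i : Fin 4, ∑ j ∈ Finset.Ioi i, ‖Fc k q U x i j‖ ^ 2 := by
  unfold Sq
  simp only [Fc_sq, Finset.mul_sum]

theorem two_Sq_nonneg [NeZero n] [NeZero L] [NeZero l] (k : ℕ) (q : ZMod n × ZMod L → ZMod N)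
    (U : Link n L l → SU N) : 0 ≤ 2 * Sq k q U := by
  rw [two_Sq]
  exact Finset.sum_nonneg fun _ _ => Finset.sum_nonneg fun _ _ => Finset.sum_nonneg fun _ _ =>
    sq_nonneg _

theorem ss_nonneg [NeZero n] [NeZero L] [NeZero l] (k : ℕ) (q : ZMod n × ZMod L → ZMod N)
    (U : Link n L l → SU N) : 0 ≤ ss k q U := Real.sqrt_nonneg _

theorem ss_sq [NeZero n] [NeZero L] [NeZero l] (k : ℕ) (q : ZMod n × ZMod L → ZMod N)
    (U : Link n L l → SU N) :
    ss k q U ^ 2 = ∑ x : Site n L l, ∑ i : Fin 4, ∑ j ∈ Finset.Ioi i, ‖Fc k q U x i j‖ ^ 2 := by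
  rw [ss, Real.sq_sqrt (two_Sq_nonneg k q U), two_Sq]

theorem ss_sq' [NeZero n] [NeZero L] [NeZero l] (k : ℕ) (q : ZMod n × ZMod L → ZMod N)
    (U : Link n L l → SU N) : ss k q U ^ 2 = 2 * Sq k q U := by
  rw [ss, Real.sq_sqrt (two_Sq_nonneg k q U)]

theorem Fc_le_lt [NeZero n] [NeZero L] [NeZero l] (k : ℕ) (q : ZMod n × ZMod L → ZMod N)
    (U : Link n L l → SU N) (x : Site n L l) {i j : Fin 4} (h : i < j) :
    ‖Fc k q U x i j‖ ≤ ss k q U := by
  refine abs_le_of_sq_le_sq' ?_ (ss_nonneg k q U) |>.2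
  rw [ss_sq]
  refine le_trans ?_ (Finset.single_le_sum (f := fun x => ∑ i : Fin 4, ∑ j ∈ Finset.Ioi i,
    ‖Fc k q U x i j‖ ^ 2) (fun _ _ => Finset.sum_nonneg fun _ _ => Finset.sum_nonneg fun _ _ =>
    sq_nonneg _) (Finset.mem_univ x))
  refine le_trans ?_ (Finset.single_le_sum (f := fun i => ∑ j ∈ Finset.Ioi i,
    ‖Fc k q U x i j‖ ^ 2) (fun _ _ => Finset.sum_nonneg fun _ _ => sq_nonneg _)
    (Finset.mem_univ i))
  exact Finset.single_le_sum (f := fun j => ‖Fc k q U x i j‖ ^ 2) (fun _ _ => sq_nonneg _)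
    (Finset.mem_Ioi.2 h)

theorem plaq_symm (U : Link n L l → SU N) (x : Site n L l) (i j : Fin 4) :
    plaq U x j i = (plaq U x i j)⁻¹ := by
  unfold plaq
  group

theorem Vc_symm (k : ℕ) (q : ZMod n × ZMod L → ZMod N) (U : Link n L l → SU N)
    (x : Site n L l) (i j : Fin 4) : Vc k q U x j i = (Vc k q U x i j)ᴴ := by
  rw [Vc, Vc, plaq_symm U x i j, zz_conj k q x i j, conjTranspose_smul]
  rfl

theorem Fc_symm (k : ℕ) (q : ZMod n × ZMod L → ZMod N) (U : Link n L l → SU N)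
    (x : Site n L l) (i j : Fin 4) : Fc k q U x j i = (Fc k q U x i j)ᴴ := by
  rw [Fc_eq, Fc_eq, Vc_symm k q U x i j, conjTranspose_sub, conjTranspose_one]

theorem Fc_diag (k : ℕ) (q : ZMod n × ZMod L → ZMod N) (U : Link n L l → SU N)
    (x : Site n L l) (i : Fin 4) : Fc k q U x i i = 0 := by
  have h1 : plaq U x i i = 1 := by
    unfold plaq
    group
  have h2 : zz N k q x i i = 1 := by
    unfold zz
    rw [if_neg (lt_irrefl i), z0_diag, map_one]
  rw [Fc, h1, h2, one_smul]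
  exact sub_self _

theorem Fc_le [NeZero n] [NeZero L] [NeZero l] (k : ℕ) (q : ZMod n × ZMod L → ZMod N)
    (U : Link n L l → SU N) (x : Site n L l) (i j : Fin 4) :
    ‖Fc k q U x i j‖ ≤ ss k q U := by
  rcases lt_trichotomy i j with h | h | h
  · exact Fc_le_lt k q U x h
  · subst h
    rw [Fc_diag, norm_zero]
    exact ss_nonneg k q U
  · rw [Fc_symm k q U x j i, frobenius_norm_conjTranspose]
    exact Fc_le_lt k q U x h

theorem rh_norm (k : ℕ) (α : Col N) (x : Site n L l) (j : Fin 4) : ‖rh k α x j‖ = 1 := by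
  unfold rh
  split_ifs
  · rw [norm_pow, RCLike.norm_conj, norm_om, one_pow]
  · rw [norm_pow, norm_om, one_pow]
  · exact norm_one

theorem vol_ge [NeZero n] [NeZero L] [NeZero l] : (1 : ℝ) ≤ vol n L l ∧ (l : ℝ) ≤ vol n L l := by
  have hn : (1 : ℝ) ≤ n := by exact_mod_cast Nat.pos_of_neZero n
  have hL : (1 : ℝ) ≤ L := by exact_mod_cast Nat.pos_of_neZero L
  have hl : (1 : ℝ) ≤ l := by exact_mod_cast Nat.pos_of_neZero l
  have h1 : (1 : ℝ) ≤ n * L := by nlinarith
  unfold vol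
  constructor <;> nlinarith

theorem card_site [NeZero n] [NeZero L] [NeZero l] :
    ((Finset.univ : Finset (Site n L l)).card : ℝ) = vol n L l := by
  rw [Finset.card_univ, Fintype.card_prod, Fintype.card_prod, Fintype.card_prod, ZMod.card,
    ZMod.card, ZMod.card, vol]
  push_cast
  ring

end Run7.h370.QC
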