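import Pool.Agent.Run7.h370.QC.Q6
import Pool.Agent.Run7.h370.QC.Q4

/-!
Q7: the virial identity.
-/

set_option autoImplicit false

open Matrix
open scoped Matrix.Norms.Frobenius ComplexConjugate

namespace Run7.h370.QC

open Run7.h4.YM Run7.h630.MQ Run7.h630.QC Run7.h370.MQ

variable {N n L l : ℕ}

theorem ph2_norm [NeZero n] [NeZero L] [NeZero l] (k : ℕ) (q : ZMod n × ZMod L → ZMod N)
    (α : Col N) (U : Link n L l → SU N) (i j : Fin 4) (x : Site n L l) :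
    ‖ph2 k q α U i j x‖ ≤ N ^ 2 * ss k q U := by
  unfold ph2
  refine (norm_tr_mul_le _ _).trans ?_
  have h1 : ‖(Dr α U x).1‖ ≤ N := norm_SU_le _
  have h2 := Fc_le k q U x i j
  calc (N : ℝ) * (‖(Dr α U x).1‖ * ‖Fc k q U x i j‖) ≤ N * (N * ss k q U) := by gcongr
    _ = _ := by ring

theorem ps_norm [NeZero n] [NeZero L] [NeZero l] (k : ℕ) (q : ZMod n × ZMod L → ZMod N)
    (α : Col N) (U : Link n L l → SU N) (i j : Fin 4) (x : Site n L l) :
    ‖ps k q α U i j x‖ ≤ N ^ 2 * ss k q U := by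
  unfold ps
  split_ifs
  · rw [RCLike.norm_conj]
    exact ph2_norm k q α U i j x
  · rw [norm_neg, RCLike.norm_conj]
    exact ph2_norm k q α U j i x
  · rw [norm_zero]
    exact mul_nonneg (by positivity) (ss_nonneg k q U)

theorem ps_anti (k : ℕ) (q : ZMod n × ZMod L → ZMod N)
    (α : Col N) (U : Link n L l → SU N) (i j : Fin 4) (x : Site n L l) :
    ps k q α U j i x = -ps k q α U i j x := by
  unfold ps
  rcases lt_trichotomy i j with h | h | h
  · rw [if_neg h.not_gt, if_pos h, if_pos h]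
  · subst h
    rw [if_neg (lt_irrefl i), if_neg (lt_irrefl i), neg_zero]
  · rw [if_pos h, if_neg h.not_gt, if_pos h, neg_neg]

theorem conj_ps (k : ℕ) (q : ZMod n × ZMod L → ZMod N)
    (α : Col N) (U : Link n L l → SU N) {i j : Fin 4} (h : i < j) (x : Site n L l) :
    conj (ps k q α U i j x) = ph2 k q α U i j x := by
  unfold ps
  rw [if_pos h, Complex.conj_conj]

theorem nb_smul (k : ℕ) (α : Col N) (j : Fin 4) (c : ℂ) (h : Site n L l → ℂ) (x : Site n L l) :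
    nb k α j (fun x => c * h x) x = c * nb k α j h x := by
  unfold nb
  ring

theorem Dr_zero [NeZero N] (U : Link n L l → SU N) (x : Site n L l) :
    (Dr ((0, 0) : Col N) U x).1 = 1 := by
  have h : Dr ((0, 0) : Col N) U x = 1 := by
    unfold Dr
    have h0 : ((0 : Fin N) : ℕ) = 0 := rfl
    simp only [h0, pow_zero, mul_one]
  rw [h]
  rfl

/-- the sum over the colours -/
theorem col_sum [NeZero N] [NeZero n] [NeZero L] [NeZero l] {C3 C3b : ℝ} {p3 : ℕ}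
    (hC3b : 0 ≤ C3b) (k : ℕ) (q : ZMod n × ZMod L → ZMod N) (U : Link n L l → SU N)
    (h3 : ∀ (x : Site n L l) (M : Mt N),
      |∑ α : Col N, ‖trace ((Dr α U x).1 * M)‖ ^ 2 - N * ‖M‖ ^ 2| ≤
        C3 * l ^ p3 * ss k q U * ‖M‖ ^ 2)
    (h3b : ∀ (z : ℂ), z ^ N = 1 → ∀ g : SU N, ‖trace (z • g.1 - 1)‖ ≤ C3b * ‖z • g.1 - 1‖ ^ 2)
    (x : Site n L l) {i j : Fin 4} (hij : i < j) :
    |∑ α ∈ CN N, ‖ps k q α U i j x‖ ^ 2 - N * ‖Fc k q U x i j‖ ^ 2| ≤
      (C3 * l ^ p3 + N * C3b) * ss k q U * ‖Fc k q U x i j‖ ^ 2 := by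
  have e1 : ∀ α, ‖ps k q α U i j x‖ = ‖trace ((Dr α U x).1 * Fc k q U x i j)‖ := by
    intro α
    rw [← RCLike.norm_conj, conj_ps k q α U hij]
    rfl
  have e2 : ∑ α : Col N, ‖trace ((Dr α U x).1 * Fc k q U x i j)‖ ^ 2 =
      ∑ α ∈ CN N, ‖ps k q α U i j x‖ ^ 2 + ‖trace (Fc k q U x i j)‖ ^ 2 := by
    have h0 : (0, 0) ∈ (Finset.univ : Finset (Col N)) := Finset.mem_univ _
    rw [← Finset.sum_erase_add _ _ h0, Dr_zero, one_mul]
    congr 1
    exact Finset.sum_congr rfl fun α _ => by rw [e1]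
  have a1 := h3 x (Fc k q U x i j)
  rw [e2] at a1
  have a2 : ‖trace (Fc k q U x i j)‖ ≤ C3b * ‖Fc k q U x i j‖ ^ 2 := h3b _ (zz_pow k q x i j) _
  have a3 : ‖trace (Fc k q U x i j)‖ ≤ N * ss k q U := (norm_tr_le _).trans
    (mul_le_mul_of_nonneg_left (Fc_le k q U x i j) (Nat.cast_nonneg _))
  have a4 : ‖trace (Fc k q U x i j)‖ ^ 2 ≤ (C3b * ‖Fc k q U x i j‖ ^ 2) * (N * ss k q U) := by
    rw [sq]
    exact mul_le_mul a2 a3 (norm_nonneg _) (by positivity)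
  have a5 : 0 ≤ ‖trace (Fc k q U x i j)‖ ^ 2 := sq_nonneg _
  rw [abs_le] at a1 ⊢
  constructor <;> nlinarith [a1.1, a1.2, a4, a5]

theorem t_Q7 : S_Q3 → S_Q3b → S_Q4 → S_Q5b → S_Q6 → S_Q7 := by
  intro hQ3 hQ3b hQ4 hQ5b hQ6 N _
  obtain ⟨C3, p3, hC3, h3⟩ := hQ3 N
  obtain ⟨C3b, hC3b, h3b⟩ := hQ3b N
  obtain ⟨C4, p4, hC4, h4⟩ := hQ4 N
  obtain ⟨C5, p5, hC5, h5⟩ := hQ5b N
  obtain ⟨C6, p6, hC6, h6⟩ := hQ6 N
  have hN : (0 : ℝ) < N := by exact_mod_cast Nat.pos_of_neZero N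
  have hN1 : (1 : ℝ) ≤ N := by exact_mod_cast Nat.pos_of_neZero N
  refine ⟨C6 * (N * C5) + N ^ 3 * (C5 * C4) + (C3 + N * C3b), p3 + p4 + p5 + p6,
    by positivity, ?_⟩
  intro n L l k _ _ _ hco q U
  have hVV := vol_ge (n := n) (L := L) (l := l)
  have hl0 : (0 : ℝ) ≤ l := Nat.cast_nonneg _
  set s := ss k q U with hs
  have hs0 : 0 ≤ s := ss_nonneg k q U
  set V := vol n L l with hV
  have hV1 : 1 ≤ V := hVV.1
  have hV0 : 0 ≤ V := by linarith
  -- the coefficients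
  set a : Col N → Fin 4 → Site n L l → ℂ := fun α j x =>
    if α = (0, 0) then 0 else (-(1 / N) : ℂ) * pot k α (ps k q α U) j x with ha
  have hKa : Kf k q U = Ka a U := by
    funext e
    unfold Kf Ka
    congr 1
    refine Finset.sum_congr rfl fun α hα => ?_
    simp only [ha, if_neg (Finset.ne_of_mem_erase hα)]
  set M5 : ℝ := N ^ 2 * s with hM5
  have hM50 : 0 ≤ M5 := by positivity
  set ε : ℝ := C4 * l ^ p4 * s ^ 2 with hε
  have hb : ∀ α : Col N, α ≠ (0, 0) →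
      (∀ j x, ‖pot k α (ps k q α U) j x‖ ≤ C5 * V ^ p5 * M5) ∧
      ‖∑ x : Site n L l, ∑ i : Fin 4, ∑ j ∈ Finset.Ioi i,
        ((nb k α i (pot k α (ps k q α U) j) x - nb k α j (pot k α (ps k q α U) i) x) *
          conj (ps k q α U i j x) - ((‖ps k q α U i j x‖ ^ 2 : ℝ) : ℂ))‖ ≤
        C5 * V ^ p5 * (ε * M5) := fun α hα =>
    h5 n L l k hco α hα (ps k q α U) M5 ε (fun i j x => ps_anti k q α U i j x)
      (fun i j x => ps_norm k q α U i j x)
      (fun i j m x h1 h2 h3 => h4 n L l k q U α x i j m h1 h2 h3)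
  set M6 : ℝ := N * C5 * V ^ p5 * s with hM6
  have haM : ∀ α j x, ‖a α j x‖ ≤ M6 := by
    intro α j x
    simp only [ha]
    split_ifs with h
    · rw [norm_zero]
      positivity
    · rw [norm_mul, norm_neg, norm_div, norm_one, Complex.norm_natCast]
      have := (hb α h).1 j x
      calc 1 / (N : ℝ) * ‖pot k α (ps k q α U) j x‖ ≤ 1 / N * (C5 * V ^ p5 * M5) := by gcongr
        _ = M6 := by
          rw [hM5, hM6]
          field_simp
  have e6 := h6 n L l k q U a M6 haM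
  rw [← hKa] at e6
  -- the sum over one colour
  have e7 : ∀ α ∈ CN N, |∑ x : Site n L l, ∑ i : Fin 4, ∑ j ∈ Finset.Ioi i,
        ((nb k α i (a α j) x - nb k α j (a α i) x) * ph2 k q α U i j x).re +
      1 / N * ∑ x : Site n L l, ∑ i : Fin 4, ∑ j ∈ Finset.Ioi i, ‖ps k q α U i j x‖ ^ 2| ≤
        1 / N * (C5 * V ^ p5 * (ε * M5)) := by
    intro α hα
    have hα0 := Finset.ne_of_mem_erase hα
    have e8 : ∀ (x : Site n L l) (i j : Fin 4), i < j →
        ((nb k α i (a α j) x - nb k α j (a α i) x) * ph2 k q α U i j x).re +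
          1 / N * ‖ps k q α U i j x‖ ^ 2 =
        -(1 / N) * ((nb k α i (pot k α (ps k q α U) j) x -
          nb k α j (pot k α (ps k q α U) i) x) * conj (ps k q α U i j x) -
            ((‖ps k q α U i j x‖ ^ 2 : ℝ) : ℂ)).re := by
      intro x i j hij
      have f1 : ∀ j, a α j = fun x => (-(1 / N) : ℂ) * pot k α (ps k q α U) j x := by
        intro j
        funext x
        simp only [ha, if_neg hα0]
      rw [f1, f1, nb_smul, nb_smul, conj_ps k q α U hij]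
      have f2 : (-(1 / N) * nb k α i (fun x => pot k α (ps k q α U) j x) x -
          -(1 / N) * nb k α j (fun x => pot k α (ps k q α U) i x) x) * ph2 k q α U i j x =
          ((-(1 / N) : ℝ) : ℂ) * ((nb k α i (pot k α (ps k q α U) j) x -
          nb k α j (pot k α (ps k q α U) i) x) * ph2 k q α U i j x) := by
        push_cast
        ring
      rw [f2, Complex.re_ofReal_mul, Complex.sub_re, Complex.ofReal_re]
      ring
    have e9 : ∑ x : Site n L l, ∑ i : Fin 4, ∑ j ∈ Finset.Ioi i,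
        ((nb k α i (a α j) x - nb k α j (a α i) x) * ph2 k q α U i j x).re +
      1 / N * ∑ x : Site n L l, ∑ i : Fin 4, ∑ j ∈ Finset.Ioi i, ‖ps k q α U i j x‖ ^ 2 =
      -(1 / N) * (∑ x : Site n L l, ∑ i : Fin 4, ∑ j ∈ Finset.Ioi i,
        ((nb k α i (pot k α (ps k q α U) j) x - nb k α j (pot k α (ps k q α U) i) x) *
          conj (ps k q α U i j x) - ((‖ps k q α U i j x‖ ^ 2 : ℝ) : ℂ))).re := by
      simp only [Complex.re_sum, Finset.mul_sum]
      rw [← Finset.sum_add_distrib]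
      refine Finset.sum_congr rfl fun x _ => ?_
      rw [← Finset.sum_add_distrib]
      refine Finset.sum_congr rfl fun i _ => ?_
      rw [← Finset.sum_add_distrib]
      refine Finset.sum_congr rfl fun j hj => ?_
      exact e8 x i j (Finset.mem_Ioi.1 hj)
    rw [e9, abs_mul, abs_neg, abs_of_nonneg (by positivity : (0 : ℝ) ≤ 1 / N)]
    exact mul_le_mul_of_nonneg_left ((Complex.abs_re_le_norm _).trans (hb α hα0).2)
      (by positivity)
  have e10 : |∑ α ∈ CN N, ∑ x : Site n L l, ∑ i : Fin 4, ∑ j ∈ Finset.Ioi i,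
        ((nb k α i (a α j) x - nb k α j (a α i) x) * ph2 k q α U i j x).re +
      1 / N * ∑ x : Site n L l, ∑ i : Fin 4, ∑ j ∈ Finset.Ioi i,
        ∑ α ∈ CN N, ‖ps k q α U i j x‖ ^ 2| ≤
        N ^ 2 * (1 / N * (C5 * V ^ p5 * (ε * M5))) := by
    have f1 : ∑ x : Site n L l, ∑ i : Fin 4, ∑ j ∈ Finset.Ioi i,
        ∑ α ∈ CN N, ‖ps k q α U i j x‖ ^ 2 =
        ∑ α ∈ CN N, ∑ x : Site n L l, ∑ i : Fin 4, ∑ j ∈ Finset.Ioi i,
          ‖ps k q α U i j x‖ ^ 2 := by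
      symm
      rw [Finset.sum_comm]
      refine Finset.sum_congr rfl fun x _ => ?_
      rw [Finset.sum_comm]
      refine Finset.sum_congr rfl fun i _ => ?_
      rw [Finset.sum_comm]
    rw [f1, Finset.mul_sum, ← Finset.sum_add_distrib]
    refine (Finset.abs_sum_le_sum_abs _ _).trans ?_
    refine (Finset.sum_le_sum e7).trans ?_
    rw [Finset.sum_const, nsmul_eq_mul]
    exact mul_le_mul_of_nonneg_right card_CN (by positivity)
  -- the sum over the colours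
  have e11 : |∑ x : Site n L l, ∑ i : Fin 4, ∑ j ∈ Finset.Ioi i,
      ∑ α ∈ CN N, ‖ps k q α U i j x‖ ^ 2 - N * s ^ 2| ≤
      (C3 * l ^ p3 + N * C3b) * s * s ^ 2 := by
    rw [hs, ss_sq]
    simp only [Finset.mul_sum]
    rw [← Finset.sum_sub_distrib]
    refine (Finset.abs_sum_le_sum_abs _ _).trans (Finset.sum_le_sum fun x _ => ?_)
    rw [← Finset.sum_sub_distrib]
    refine (Finset.abs_sum_le_sum_abs _ _).trans (Finset.sum_le_sum fun i _ => ?_)
    rw [← Finset.sum_sub_distrib]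
    refine (Finset.abs_sum_le_sum_abs _ _).trans (Finset.sum_le_sum fun j hj => ?_)
    exact col_sum hC3b.le k q U (fun x M => h3 n L l k hco q U x M) h3b x (Finset.mem_Ioi.1 hj)
  set P := ∑ x : Site n L l, ∑ i : Fin 4, ∑ j ∈ Finset.Ioi i,
      ∑ α ∈ CN N, ‖ps k q α U i j x‖ ^ 2 with hP
  set Q := ∑ α ∈ CN N, ∑ x : Site n L l, ∑ i : Fin 4, ∑ j ∈ Finset.Ioi i,
        ((nb k α i (a α j) x - nb k α j (a α i) x) * ph2 k q α U i j x).re with hQ
  have e12 : |1 / N * P - s ^ 2| ≤ 1 / N * ((C3 * l ^ p3 + N * C3b) * s * s ^ 2) := by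
    have f1 : 1 / N * P - s ^ 2 = 1 / N * (P - N * s ^ 2) := by
      field_simp
    rw [f1, abs_mul, abs_of_nonneg (by positivity : (0 : ℝ) ≤ 1 / N)]
    exact mul_le_mul_of_nonneg_left e11 (by positivity)
  -- the powers
  have hpw : ∀ a b : ℕ, a ≤ b → V ^ a ≤ V ^ b := fun a b hab => pow_le_pow_right₀ hV1 hab
  have hs3 : 0 ≤ s ^ 3 := by positivity
  have b1 : C6 * V ^ p6 * M6 * s ^ 2 ≤ C6 * (N * C5) * (V ^ (p3 + p4 + p5 + p6) * s ^ 3) := by
    have f1 : C6 * V ^ p6 * M6 * s ^ 2 = C6 * (N * C5) * (V ^ (p5 + p6) * s ^ 3) := by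
      rw [hM6, pow_add]
      ring
    rw [f1]
    have := hpw (p5 + p6) (p3 + p4 + p5 + p6) (by omega)
    gcongr
  have b2 : N ^ 2 * (1 / N * (C5 * V ^ p5 * (ε * M5))) ≤
      N ^ 3 * (C5 * C4) * (V ^ (p3 + p4 + p5 + p6) * s ^ 3) := by
    have f1 : N ^ 2 * (1 / N * (C5 * V ^ p5 * (ε * M5))) =
        N ^ 3 * (C5 * C4) * (V ^ p5 * (l : ℝ) ^ p4 * s ^ 3) := by
      rw [hε, hM5]
      field_simp
    rw [f1]
    have f2 : V ^ p5 * (l : ℝ) ^ p4 ≤ V ^ (p3 + p4 + p5 + p6) := by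
      calc V ^ p5 * (l : ℝ) ^ p4 ≤ V ^ p5 * V ^ p4 := by
            have := hVV.2
            gcongr
        _ = V ^ (p5 + p4) := by rw [pow_add]
        _ ≤ _ := hpw _ _ (by omega)
    gcongr
  have b3 : 1 / N * ((C3 * l ^ p3 + N * C3b) * s * s ^ 2) ≤
      (C3 + N * C3b) * (V ^ (p3 + p4 + p5 + p6) * s ^ 3) := by
    have f0 : (l : ℝ) ^ p3 ≤ V ^ (p3 + p4 + p5 + p6) := by
      calc (l : ℝ) ^ p3 ≤ V ^ p3 := by
            have := hVV.2
            gcongr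
        _ ≤ _ := hpw _ _ (by omega)
    have f00 : 1 ≤ V ^ (p3 + p4 + p5 + p6) := one_le_pow₀ hV1
    have f1 : 1 / (N : ℝ) ≤ 1 := by
      rw [div_le_one hN]
      exact hN1
    have f2 : (C3 * l ^ p3 + N * C3b) * s * s ^ 2 ≤
        (C3 + N * C3b) * (V ^ (p3 + p4 + p5 + p6) * s ^ 3) := by
      have f3 : C3 * (l : ℝ) ^ p3 + N * C3b ≤ (C3 + N * C3b) * V ^ (p3 + p4 + p5 + p6) := by
        have f4 : C3 * (l : ℝ) ^ p3 ≤ C3 * V ^ (p3 + p4 + p5 + p6) := by gcongr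
        have f5 : N * C3b * 1 ≤ N * C3b * V ^ (p3 + p4 + p5 + p6) := by gcongr
        linarith
      calc (C3 * l ^ p3 + N * C3b) * s * s ^ 2 = (C3 * l ^ p3 + N * C3b) * s ^ 3 := by ring
        _ ≤ (C3 + N * C3b) * V ^ (p3 + p4 + p5 + p6) * s ^ 3 := by gcongr
        _ = _ := by ring
    have f6 : 0 ≤ (C3 * l ^ p3 + N * C3b) * s * s ^ 2 := by positivity
    calc 1 / N * ((C3 * l ^ p3 + N * C3b) * s * s ^ 2) ≤
        1 * ((C3 * l ^ p3 + N * C3b) * s * s ^ 2) := mul_le_mul_of_nonneg_right f1 f6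
      _ ≤ _ := by rw [one_mul]; exact f2
  rw [← ss_sq', ← hs]
  rw [abs_le] at e6 e10 e12 ⊢
  constructor <;> linarith [e6.1, e6.2, e10.1, e10.2, e12.1, e12.2, b1, b2, b3]

end Run7.h370.QC
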